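import Mathlib
import Pool.Agent.H536.OR.RQ

/-!
# Primes `p` in every progression to every modulus `q ≤ X ^ δ` for which `p ^ 2 + p + 1` has at most five prime factors

For all large `X`, every modulus `q ≤ X ^ δ` (also a multiple of an exceptional modulus of Siegel's type) and every class `a`
with `a (a ^ 2 + a + 1)` prime to `q` there are at least `X ^ 0.97` primes `p ≤ X`, `p ≡ a` modulo `q`, such that
`p ^ 2 + p + 1` has at most five prime factors, all of them larger than `X ^ 0.11`. The values `g_i(p)` of any further polynomials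
can be required to have a bounded number of prime factors, uniformly in their coefficients, if there is no local obstruction.
-/

open Polynomial

namespace Pool.Agent.Results.MP_82233c_nt.FivePrimeFactorsEveryModulus

/-- `m` has at least one and at most five prime factors (with multiplicity), all of them larger than `X ^ (11 / 100)` -/
def RoughP5 (X m : ℕ) : Prop :=
  1 < m ∧ ArithmeticFunction.cardFactors m ≤ 5 ∧ ∀ l : ℕ, l.Prime → l ∣ m → (X : ℝ) ^ (11 / 100 : ℝ) < l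

theorem val_eq (p : ℕ) : ((p : ℤ) ^ 2 + p + 1).natAbs = p ^ 2 + p + 1 := by
  zify
  rw [abs_of_nonneg]
  positivity

theorem result :
    (∃ (δ : ℝ) (X0 : ℕ), 0 < δ ∧ ∀ X : ℕ, X0 ≤ X → ∀ q a : ℕ, 1 ≤ q → (q : ℝ) ≤ (X : ℝ) ^ δ →
      (a * (a ^ 2 + a + 1)).Coprime q →
      ∃ S : Finset ℕ, (X : ℝ) ^ (97 / 100 : ℝ) ≤ S.card ∧ ∀ p ∈ S, p.Prime ∧ p ≤ X ∧ (X : ℝ) ^ (97 / 100 : ℝ) ≤ p ∧
        p ≡ a [MOD q] ∧ RoughP5 X (p ^ 2 + p + 1)) ∧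
    (∀ k D K : ℕ, ∃ (δ : ℝ) (R X0 : ℕ), 0 < δ ∧ ∀ X : ℕ, X0 ≤ X → ∀ g : Fin k → ℤ[X], (∀ i, (g i).natDegree ≤ D) →
      (∀ i j, |(g i).coeff j| ≤ X ^ K) → ∀ q a : ℕ, 1 ≤ q → (q : ℝ) ≤ (X : ℝ) ^ δ →
      (∀ l : ℕ, l.Prime → ∃ n : ℤ, (l ∣ q → (l : ℤ) ∣ n - a) ∧ ¬ (l : ℤ) ∣ n ∧ ¬ (l : ℤ) ∣ n ^ 2 + n + 1 ∧
        ∀ i, ¬ (l : ℤ) ∣ (g i).eval n) →
      ∃ S : Finset ℕ, (X : ℝ) ^ (97 / 100 : ℝ) ≤ S.card ∧ ∀ p ∈ S, p.Prime ∧ p ≤ X ∧ (X : ℝ) ^ (97 / 100 : ℝ) ≤ p ∧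
        p ≡ a [MOD q] ∧ RoughP5 X (p ^ 2 + p + 1) ∧
        ∀ i, (g i).eval (p : ℤ) ≠ 0 ∧ ArithmeticFunction.cardFactors ((g i).eval (p : ℤ)).natAbs ≤ R) := by
  have key : ∀ k D K : ℕ, ∃ (δ : ℝ) (R X0 : ℕ), 0 < δ ∧ ∀ X : ℕ, X0 ≤ X → ∀ g : Fin k → ℤ[X], (∀ i, (g i).natDegree ≤ D) →
      (∀ i j, |(g i).coeff j| ≤ X ^ K) → ∀ q a : ℕ, 1 ≤ q → (q : ℝ) ≤ (X : ℝ) ^ δ →
      (∀ l : ℕ, l.Prime → ∃ n : ℤ, (l ∣ q → (l : ℤ) ∣ n - a) ∧ ¬ (l : ℤ) ∣ n ∧ ¬ (l : ℤ) ∣ n ^ 2 + n + 1 ∧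
        ∀ i, ¬ (l : ℤ) ∣ (g i).eval n) →
      ∃ S : Finset ℕ, (X : ℝ) ^ (97 / 100 : ℝ) ≤ S.card ∧ ∀ p ∈ S, p.Prime ∧ p ≤ X ∧ (X : ℝ) ^ (97 / 100 : ℝ) ≤ p ∧
        p ≡ a [MOD q] ∧ RoughP5 X (p ^ 2 + p + 1) ∧
        ∀ i, (g i).eval (p : ℤ) ≠ 0 ∧ ArithmeticFunction.cardFactors ((g i).eval (p : ℤ)).natAbs ≤ R := by
    intro k D K
    obtain ⟨hirr, hdeg⟩ := Pool.Agent.H536.OR.irr3
    obtain ⟨δ, R, X0, hδ, h⟩ := Pool.Agent.H536.OR.PTall _ hirr hdeg.ge k D K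
    refine ⟨δ, R, X0 + 1, hδ, ?_⟩
    intro X hX g hg1 hg2 q a hq hqX hloc
    have hX1 : (1 : ℝ) ≤ X := by
      have : 1 ≤ X := by omega
      exact_mod_cast this
    have hev : ∀ n : ℤ, (Polynomial.X ^ 2 + Polynomial.X + 1 : ℤ[X]).eval (1 * n) = n ^ 2 + n + 1 := by
      intro n
      simp
    obtain ⟨S, hS, h1⟩ := h X (by omega) g hg1 hg2 q a 1 hq hqX one_ne_zero (by
      rw [Int.cast_one, abs_one]
      exact Real.one_le_rpow hX1 hδ.le) (fun l hl => by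
      obtain ⟨n, n1, n2, n3, n4⟩ := hloc l hl
      exact ⟨n, n1, n2, by rw [hev]; exact n3, n4⟩)
    refine ⟨S, hS, fun p hp => ?_⟩
    obtain ⟨g1, g2, g3, g4, g5, g6, g7, g8⟩ := h1 p hp
    rw [hev, val_eq] at g5 g6 g7
    rw [hdeg] at g6
    exact ⟨g1, g2, g4, g3, ⟨g5, by omega, g7⟩, g8⟩
  refine ⟨?_, key⟩
  obtain ⟨δ, R, X0, hδ, h⟩ := key 0 0 0
  refine ⟨δ, X0, hδ, fun X hX q a hq hqX hcop => ?_⟩
  obtain ⟨S, hS, h1⟩ := h X hX (fun i => i.elim0) (fun i => i.elim0) (fun i => i.elim0) q a hq hqX (fun l hl => by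
    by_cases hlq : l ∣ q
    · refine ⟨a, fun _ => by simp, ?_, ?_, fun i => i.elim0⟩
      · intro hd
        have h2 : l ∣ a := by exact_mod_cast hd
        have h3 := Nat.dvd_gcd (h2.mul_right (a ^ 2 + a + 1)) hlq
        rw [hcop] at h3
        exact hl.one_lt.ne' (Nat.dvd_one.1 h3)
      · intro hd
        have h2 : l ∣ a ^ 2 + a + 1 := by exact_mod_cast hd
        have h3 := Nat.dvd_gcd (h2.mul_left a) hlq
        rw [hcop] at h3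
        exact hl.one_lt.ne' (Nat.dvd_one.1 h3)
    · by_cases h7 : l = 3
      · subst h7
        exact ⟨2, fun h => absurd h hlq, by norm_num, by norm_num, fun i => i.elim0⟩
      · refine ⟨1, fun h => absurd h hlq, ?_, ?_, fun i => i.elim0⟩
        · intro hd
          exact hl.one_lt.ne' (by exact_mod_cast Nat.dvd_one.1 (by exact_mod_cast hd))
        · intro hd
          apply h7
          have h2 : l ∣ 3 := by
            have h3 : (l : ℤ) ∣ ((3 : ℕ) : ℤ) := by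
              norm_num at hd ⊢
              exact hd
            exact_mod_cast h3
          exact (Nat.prime_dvd_prime_iff_eq hl (by norm_num)).1 h2)
  exact ⟨S, hS, fun p hp => by
    obtain ⟨g1, g2, g3, g4, g5, -⟩ := h1 p hp
    exact ⟨g1, g2, g3, g4, g5⟩⟩

end Pool.Agent.Results.MP_82233c_nt.FivePrimeFactorsEveryModulus
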