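import Mathlib
import Pool.Agent.H526.PQ.Final

/-!
# The parity of the number of prime factors of `P² + X g²`, `P` irreducible, over `F_q[X]`, `q` even

The Möbius function of `P² + X g²` over the irreducible `P` of degree `m` (power saving, residue
classes, several `g` at the same time), and the equidistribution of the sign patterns among the
irreducible `P` for which the `P² + X g_i²` have no irreducible factor of small degree.
-/

namespace Pool.Agent.Results.MP_82233c_nt.ParityAtIrreducibles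

open Polynomial
open scoped Classical

/-- The Möbius function of `K[X]`: `(-1) ^ k` for a nonzero constant times a product of `k`
distinct monic irreducible polynomials, and `0` for all other polynomials. -/
noncomputable def moebius {K : Type} [Field K] (F : K[X]) : ℤ :=
  if Squarefree F then (-1) ^ Multiset.card (UniqueFactorizationMonoid.factors F) else 0

/-- The monic irreducible polynomials of degree `m`. -/
def primes (K : Type) [Field K] (m : ℕ) : Set K[X] := {P | P.Monic ∧ Irreducible P ∧ P.natDegree = m}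

/-- `F` has no irreducible factor of degree at most `z`. -/
def Rough {K : Type} [Field K] (z : ℕ) (F : K[X]) : Prop :=
  ∀ π : K[X], Irreducible π → π ∣ F → z < π.natDegree

/-- No irreducible `π` divides one of the `r² + X g_i²` for all `r` prime to `π`. -/
def Admissible {K : Type} [Field K] {n : ℕ} (g : Fin n → K[X]) : Prop :=
  ∀ π : K[X], Irreducible π → ∃ r : K[X], ¬ π ∣ r ∧ ∀ i, ¬ π ∣ r ^ 2 + X * g i ^ 2

/-- The number of the nonzero classes `r` modulo `π` with `r² + X g_i² = 0` modulo `π`, some `i`. -/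
noncomputable def nu {K : Type} [Field K] {n : ℕ} (g : Fin n → K[X]) (π : K[X]) : ℕ :=
  {r : K[X] | r.degree < π.degree ∧ r ≠ 0 ∧ ∃ i, π ∣ r ^ 2 + X * g i ^ 2}.ncard

/-- The product of `1 - nu g π / (|π| - 1)` over the monic irreducible `π` of degree at most `z`. -/
noncomputable def density {K : Type} [Field K] [Fintype K] {n : ℕ} (g : Fin n → K[X]) (z : ℕ) : ℝ :=
  ∏ᶠ π ∈ {π : K[X] | π.Monic ∧ Irreducible π ∧ π.natDegree ≤ z},
    (1 - (nu g π : ℝ) / ((Fintype.card K : ℝ) ^ π.natDegree - 1))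

/-- The irreducible `P` of degree `m` such that all `P² + X g_i²` are `z`-rough. -/
def roughPrimes (K : Type) [Field K] {n : ℕ} (g : Fin n → K[X]) (m z : ℕ) : Set K[X] :=
  {P ∈ primes K m | ∀ i, Rough z (P ^ 2 + X * g i ^ 2)}

/-- `F` is a product of at most `r` distinct irreducible polynomials of degree at least `m / r`. -/
def AlmostPrime {K : Type} [Field K] (r m : ℕ) (F : K[X]) : Prop :=
  Squarefree F ∧ Multiset.card (UniqueFactorizationMonoid.factors F) ≤ r ∧
    ∀ π : K[X], Irreducible π → π ∣ F → m ≤ r * π.natDegree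

section aux

variable {K : Type} [Field K]

theorem primes_eq [Fintype K] (m : ℕ) : primes K m = ↑(Pool.Agent.H694.Typ.Irn K m) := by
  ext P
  simp only [primes, Set.mem_ofPred_eq, Finset.mem_coe, Pool.Agent.H694.Typ.mem_Irn]
  tauto

theorem rough_iff (z : ℕ) (F : K[X]) : Rough z F ↔ Pool.Agent.H985.Par.Sft z F := by
  constructor
  · intro h P _ hi hd
    exact h P hi hd
  · intro h π hi hd
    have h0 : π ≠ 0 := hi.ne_zero
    have ha : Associated (normalize π) π := normalize_associated π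
    have := h (normalize π) (Polynomial.monic_normalize h0) (ha.symm.irreducible hi)
      (ha.dvd.trans hd)
    rwa [Polynomial.natDegree_eq_of_degree_eq (Polynomial.degree_eq_degree_of_associated ha)] at this

theorem roughPrimes_eq [Fintype K] {n : ℕ} (g : Fin n → K[X]) (m z : ℕ) :
    roughPrimes K g m z = ↑(Pool.Agent.H526.PQ.Sift K g m z) := by
  ext P
  simp only [roughPrimes, Pool.Agent.H526.PQ.Sift, Finset.coe_filter, Set.mem_ofPred_eq, primes_eq,
    Finset.mem_coe, rough_iff]

theorem density_eq [Fintype K] {n : ℕ} (g : Fin n → K[X]) (z : ℕ) :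
    density g z = Pool.Agent.H526.PQ.vpR g z := by
  unfold density Pool.Agent.H526.PQ.vpR
  have : {π : K[X] | π.Monic ∧ Irreducible π ∧ π.natDegree ≤ z} =
      ↑(Pool.Agent.H694.Typ.PU K z) := by
    ext P
    simp only [Set.mem_ofPred_eq, Finset.mem_coe, Pool.Agent.H694.Typ.mem_PU]
  rw [this, finprod_mem_coe_finset]
  rfl

theorem card_factors_mul_le {F : K[X]} (hF : F ≠ 0) {z : ℕ} (h : Rough z F) :
    Multiset.card (UniqueFactorizationMonoid.factors F) * (z + 1) ≤ F.natDegree := by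
  have h1 : Associated (UniqueFactorizationMonoid.factors F).prod F :=
    UniqueFactorizationMonoid.factors_prod hF
  have h2 : (UniqueFactorizationMonoid.factors F).prod.natDegree = F.natDegree :=
    Polynomial.natDegree_eq_of_degree_eq (Polynomial.degree_eq_degree_of_associated h1)
  have h3 : (0 : K[X]) ∉ UniqueFactorizationMonoid.factors F := fun hc =>
    (UniqueFactorizationMonoid.irreducible_of_factor _ hc).ne_zero rfl
  rw [← h2, Polynomial.natDegree_multiset_prod _ h3]
  have h4 : ∀ x ∈ (UniqueFactorizationMonoid.factors F).map Polynomial.natDegree, z + 1 ≤ x := by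
    intro x hx
    obtain ⟨π, hπ, rfl⟩ := Multiset.mem_map.1 hx
    exact h π (UniqueFactorizationMonoid.irreducible_of_factor _ hπ)
      (UniqueFactorizationMonoid.dvd_of_mem_factors hπ)
  have h5 := Multiset.card_nsmul_le_sum h4
  rwa [Multiset.card_map, smul_eq_mul] at h5

end aux

theorem result :
    -- (1) power saving, residue classes
    (∀ (K : Type) [Field K] [Fintype K] [CharP K 2] (n : ℕ) (g : Fin n → K[X]), (∀ i, g i ≠ 0) →
      ∑ i, ∏ j ∈ Finset.univ.erase i, g j ≠ 0 →
      ∃ c C : ℝ, 0 < c ∧ ∀ (m : ℕ) (D r : K[X]), D.Monic → (D.natDegree : ℝ) ≤ c * m →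
        |∑ᶠ P ∈ {P ∈ primes K m | D ∣ P - r}, ∏ i, (moebius (P ^ 2 + X * g i ^ 2) : ℝ)| ≤
          C * (Fintype.card K : ℝ) ^ ((1 - c) * m)) ∧
    -- (2) the sign patterns on the rough values are equidistributed
    (∀ (K : Type) [Field K] [Fintype K] [CharP K 2] (n : ℕ) (g : Fin n → K[X]) (ε : ℝ),
      (∀ i, g i ≠ 0) → Admissible g →
      (∀ T : Finset (Fin n), T.Nonempty → ∑ i ∈ T, ∏ j ∈ T.erase i, g j ≠ 0) → 0 < ε →
      ∃ κ : ℝ, 0 < κ ∧ ∃ m₀ : ℕ, ∀ m z : ℕ, m₀ ≤ m → 1 ≤ z → (z : ℝ) ≤ κ * m →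
        |((roughPrimes K g m z).ncard : ℝ) - density g z * ((Fintype.card K : ℝ) ^ m / m)| ≤
          ε * (density g z * ((Fintype.card K : ℝ) ^ m / m)) ∧
        ∀ σ : Fin n → ℤ, (∀ i, σ i = 1 ∨ σ i = -1) →
          |({P ∈ roughPrimes K g m z | ∀ i, moebius (P ^ 2 + X * g i ^ 2) = σ i}.ncard : ℝ) -
            density g z * ((Fintype.card K : ℝ) ^ m / m) / 2 ^ n| ≤
              ε * (density g z * ((Fintype.card K : ℝ) ^ m / m))) ∧
    -- (3) almost primes with prescribed signs
    (∀ (K : Type) [Field K] [Fintype K] [CharP K 2] (n : ℕ) (g : Fin n → K[X]),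
      (∀ i, g i ≠ 0) → Admissible g →
      (∀ T : Finset (Fin n), T.Nonempty → ∑ i ∈ T, ∏ j ∈ T.erase i, g j ≠ 0) →
      ∃ (r m₀ : ℕ) (c : ℝ), 0 < c ∧ ∀ m : ℕ, m₀ ≤ m →
        ∀ σ : Fin n → ℤ, (∀ i, σ i = 1 ∨ σ i = -1) →
          c * (Fintype.card K : ℝ) ^ m / (m : ℝ) ^ (n + 1) ≤
            ({P ∈ primes K m | ∀ i, AlmostPrime r m (P ^ 2 + X * g i ^ 2) ∧
              moebius (P ^ 2 + X * g i ^ 2) = σ i}.ncard : ℝ)) ∧
    -- (4) one polynomial
    (∀ (K : Type) [Field K] [Fintype K] [CharP K 2] (g : K[X]), g ≠ 0 →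
      2 < Fintype.card K ∨ X + 1 ∣ g → Admissible (fun _ : Fin 1 => g)) := by
  refine ⟨?_, ?_, ?_, ?_⟩
  · intro K _ _ _ n g hg hs
    obtain ⟨c, C, hc, hC, h⟩ := Pool.Agent.H526.PQ.s_prik K n g hg hs
    refine ⟨c, C, hc, ?_⟩
    intro m D r hD hDm
    have h1 := h m D r hD hDm
    have h2 : {P ∈ primes K m | D ∣ P - r} =
        ↑((Pool.Agent.H694.Typ.Irn K m).filter (fun P => D ∣ P - r)) := by
      ext P
      simp only [Finset.coe_filter, Set.mem_ofPred_eq, primes_eq, Finset.mem_coe]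
    rw [h2, finsum_mem_coe_finset]
    exact h1
  · intro K _ _ _ n g ε hg ha hT hε
    obtain ⟨κ, hκ, m₀, h⟩ := Pool.Agent.H526.PQ.s_patt K n g ε hg ha hT hε
    refine ⟨κ, hκ, m₀, ?_⟩
    intro m z hm hz hzm
    obtain ⟨h1, h2⟩ := h m z hm hz hzm
    rw [density_eq, roughPrimes_eq, Set.ncard_coe_finset]
    rw [mul_div_assoc] at h1
    refine ⟨h1, ?_⟩
    intro σ hσ
    have h3 := h2 σ hσ
    have h4 : {P ∈ (↑(Pool.Agent.H526.PQ.Sift K g m z) : Set K[X]) |
        ∀ i, moebius (P ^ 2 + X * g i ^ 2) = σ i} =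
        ↑((Pool.Agent.H526.PQ.Sift K g m z).filter
          (fun P => ∀ i, Pool.Agent.H985.Chow.mob (P ^ 2 + X * g i ^ 2) = σ i)) := by
      ext P
      simp only [Finset.coe_filter, Set.mem_ofPred_eq, Finset.mem_coe]
      rfl
    rw [h4, Set.ncard_coe_finset]
    have h5 : Pool.Agent.H526.PQ.vpR g z * ((Fintype.card K : ℝ) ^ m / m) / 2 ^ n =
        Pool.Agent.H526.PQ.vpR g z * (Fintype.card K : ℝ) ^ m / (2 ^ n * m) := by
      rw [mul_div_assoc', div_div, mul_comm (m : ℝ)]
    rw [h5]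
    rw [mul_div_assoc (Pool.Agent.H526.PQ.vpR g z) _ (m : ℝ)] at h3
    exact h3
  · intro K _ _ _ n g hg ha hT
    obtain ⟨κ, hκ, m₁, h⟩ := Pool.Agent.H526.PQ.s_patt K n g (1 / 2 ^ (n + 1)) hg ha hT
      (by positivity)
    obtain ⟨C, hC, -, -, hV⟩ := Pool.Agent.H526.PQ.Vpr.main K n g ha
    obtain ⟨r, hr⟩ := exists_nat_gt (2 / κ)
    obtain ⟨m₂, hm₂⟩ := exists_nat_gt (1 / κ)
    refine ⟨r, m₁ + m₂ + ∑ i, (g i).natDegree + 1, 1 / (2 ^ (n + 1) * (C * κ ^ n)), by positivity, ?_⟩
    intro m hm σ hσ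
    have hm1 : (1 : ℝ) ≤ κ * m := by
      have : (m₂ : ℝ) ≤ m := by exact_mod_cast (by omega : m₂ ≤ m)
      rw [div_lt_iff₀ hκ] at hm₂
      nlinarith
    have hmpos : (0 : ℝ) < m := by
      have : 1 ≤ m := by omega
      exact_mod_cast this
    set z : ℕ := ⌊κ * m⌋₊ with hz
    have hz1 : 1 ≤ z := Nat.le_floor (by exact_mod_cast hm1)
    have hz2 : (z : ℝ) ≤ κ * m := Nat.floor_le (by positivity)
    have hz3 : κ * m < z + 1 := Nat.lt_floor_add_one _
    obtain ⟨-, h2⟩ := h m z (by omega) hz1 hz2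
    have h3 := (abs_le.1 (h2 σ hσ)).1
    have h4 := hV z hz1
    have hq : (0 : ℝ) < (Fintype.card K : ℝ) ^ m := by
      have : 0 < Fintype.card K := Fintype.card_pos
      positivity
    -- the lower bound
    have h5 : 1 / (2 ^ (n + 1) * (C * κ ^ n)) * (Fintype.card K : ℝ) ^ m / (m : ℝ) ^ (n + 1) ≤
        (((Pool.Agent.H526.PQ.Sift K g m z).filter
          (fun P => ∀ i, Pool.Agent.H985.Chow.mob (P ^ 2 + X * g i ^ 2) = σ i)).card : ℝ) := by
      have e1 : Pool.Agent.H526.PQ.vpR g z * (Fintype.card K : ℝ) ^ m / (2 ^ n * m) -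
          1 / 2 ^ (n + 1) * (Pool.Agent.H526.PQ.vpR g z * (Fintype.card K : ℝ) ^ m / m) =
          Pool.Agent.H526.PQ.vpR g z * ((Fintype.card K : ℝ) ^ m / (2 ^ (n + 1) * m)) := by
        rw [pow_succ]
        field_simp
        ring
      have e2 : 1 / (C * (κ * m) ^ n) ≤ Pool.Agent.H526.PQ.vpR g z := by
        refine le_trans ?_ h4
        refine one_div_le_one_div_of_le (by positivity) ?_
        exact mul_le_mul_of_nonneg_left (pow_le_pow_left₀ (by positivity) hz2 _) hC.le
      have e3 : 1 / (2 ^ (n + 1) * (C * κ ^ n)) * (Fintype.card K : ℝ) ^ m / (m : ℝ) ^ (n + 1) =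
          1 / (C * (κ * m) ^ n) * ((Fintype.card K : ℝ) ^ m / (2 ^ (n + 1) * m)) := by
        rw [mul_pow, pow_succ (m : ℝ)]
        field_simp
      rw [e3]
      have e4 := mul_le_mul_of_nonneg_right e2
        (show 0 ≤ (Fintype.card K : ℝ) ^ m / (2 ^ (n + 1) * m) by positivity)
      linarith
    refine h5.trans ?_
    rw [← Set.ncard_coe_finset]
    refine Nat.cast_le.2 (Set.ncard_le_ncard ?_ ?_)
    · intro P hP
      rw [Finset.mem_coe, Finset.mem_filter] at hP
      obtain ⟨hP1, hP2⟩ := hP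
      have hP3 : P ∈ roughPrimes K g m z := by
        rw [roughPrimes_eq]
        exact hP1
      refine ⟨hP3.1, ?_⟩
      intro i
      have hm2 : moebius (P ^ 2 + X * g i ^ 2) = σ i := hP2 i
      have hsq : Squarefree (P ^ 2 + X * g i ^ 2) := by
        by_contra hc
        have : moebius (P ^ 2 + X * g i ^ 2) = 0 := by
          unfold moebius
          rw [if_neg hc]
        rw [this] at hm2
        rcases hσ i with h | h <;> rw [h] at hm2 <;> omega
      have hne : P ^ 2 + X * g i ^ 2 ≠ 0 := hsq.ne_zero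
      have hdeg : (P ^ 2 + X * g i ^ 2).natDegree ≤ 2 * m := by
        refine (natDegree_add_le _ _).trans (max_le ?_ ?_)
        · rw [natDegree_pow, hP3.1.2.2]
        · refine natDegree_mul_le.trans ?_
          rw [natDegree_pow, natDegree_X]
          have : (g i).natDegree ≤ ∑ i, (g i).natDegree :=
            Finset.single_le_sum (f := fun i => (g i).natDegree) (fun _ _ => Nat.zero_le _)
              (Finset.mem_univ i)
          omega
      have hr2 : 2 * (m : ℝ) ≤ r * (z + 1) := by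
        rw [div_lt_iff₀ hκ] at hr
        have : 2 * (m : ℝ) ≤ (r * κ) * m := mul_le_mul_of_nonneg_right hr.le hmpos.le
        have h7 : (r : ℝ) * (κ * m) ≤ r * (z + 1) :=
          mul_le_mul_of_nonneg_left hz3.le (Nat.cast_nonneg _)
        linarith
      have hr3 : 2 * m ≤ r * (z + 1) := by exact_mod_cast hr2
      refine ⟨⟨hsq, ?_, ?_⟩, hm2⟩
      · have h6 := card_factors_mul_le hne (hP3.2 i)
        have h7 : Multiset.card (UniqueFactorizationMonoid.factors (P ^ 2 + X * g i ^ 2)) *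
            (z + 1) ≤ r * (z + 1) := by omega
        exact Nat.le_of_mul_le_mul_right h7 (Nat.succ_pos z)
      · intro π hπ hd
        have h6 := hP3.2 i π hπ hd
        have h7 : r * (z + 1) ≤ r * π.natDegree := Nat.mul_le_mul_left r h6
        omega
    · refine Set.Finite.subset (s := primes K m) ?_ (Set.sep_subset _ _)
      rw [primes_eq]
      exact Finset.finite_toSet _
  · intro K _ _ _ g hg hK π hπ
    by_contra hcon
    push Not at hcon
    have h0 : ∀ r : K[X], ¬ π ∣ r → π ∣ r ^ 2 + X * g ^ 2 := by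
      intro r hr
      obtain ⟨i, hi⟩ := hcon r hr
      exact hi
    have hu : ¬ IsUnit π := hπ.not_isUnit
    have h1 : π ∣ 1 + X * g ^ 2 := by
      have := h0 1 (fun h => hu (isUnit_of_dvd_one h))
      rwa [one_pow] at this
    by_cases hX : π ∣ X
    · have : π ∣ 1 := by
        have h2 : π ∣ X * g ^ 2 := hX.mul_right _
        exact (dvd_add_left h2).1 h1
      exact hu (isUnit_of_dvd_one this)
    have h2 : π ∣ X + 1 := by
      have h3 : π ∣ (X ^ 2 + X * g ^ 2) + (1 + X * g ^ 2) := (h0 X hX).add h1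
      have h4 : (X ^ 2 + X * g ^ 2) + (1 + X * g ^ 2) = (X + 1 : K[X]) ^ 2 := by
        linear_combination (X * g ^ 2 - X) * (CharTwo.two_eq_zero : (2 : K[X]) = 0)
      rw [h4] at h3
      exact hπ.prime.dvd_of_dvd_pow h3
    rcases hK with hK | hK
    · obtain ⟨a, ha0, ha1⟩ : ∃ a : K, a ≠ 0 ∧ a ≠ 1 := by
        by_contra hc
        push Not at hc
        have : (Finset.univ : Finset K) ⊆ {0, 1} := by
          intro x _
          rw [Finset.mem_insert, Finset.mem_singleton]
          by_cases hx : x = 0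
          · exact Or.inl hx
          · exact Or.inr (hc x hx)
        have h5 := Finset.card_le_card this
        rw [Finset.card_univ] at h5
        have h6 : ({0, 1} : Finset K).card ≤ 2 := Finset.card_le_two
        omega
      have hCa : ¬ π ∣ C a := fun h =>
        hu (isUnit_of_dvd_unit h (isUnit_C.2 (isUnit_iff_ne_zero.2 ha0)))
      have h3 : π ∣ (C a ^ 2 + X * g ^ 2) + (1 + X * g ^ 2) := (h0 _ hCa).add h1
      have h4 : (C a ^ 2 + X * g ^ 2) + (1 + X * g ^ 2) = C ((a + 1) ^ 2) := by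
        rw [C_pow, C_add, C_1]
        linear_combination (X * g ^ 2 - C a) * (CharTwo.two_eq_zero : (2 : K[X]) = 0)
      rw [h4] at h3
      have h5 : a + 1 ≠ 0 := by
        intro h
        exact ha1 (CharTwo.add_eq_zero.1 h)
      exact hu (isUnit_of_dvd_unit h3 (isUnit_C.2 (isUnit_iff_ne_zero.2 (pow_ne_zero 2 h5))))
    · have h3 : π ∣ g := h2.trans hK
      have h4 : π ∣ X * g ^ 2 := (h3.trans (dvd_pow_self g two_ne_zero)).mul_left X
      exact hu (isUnit_of_dvd_one ((dvd_add_left h4).1 h1))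

end Pool.Agent.Results.MP_82233c_nt.ParityAtIrreducibles
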