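import Pool.Agent.H537.BI.Almost

/-!
# Classes which contain fewer prime points than expected: the second order term, for almost all constants

Let `f_1, ..., f_k` be polynomials with integer coefficients, positive degrees `d_i` and positive leading
coefficients, for instance `f_1 = X` and `f_2 = X ^ 2 + X`, and let `c_i ≤ A_i` be constants, where `A_i` has the
order of `x ^ d_i`. We consider the numbers `n ≤ x` at which all `f_i(n) + c_i` are prime (prime points of the
system), in the residue classes `a` modulo `q` with `q` between `x / (log x) ^ B` and `x / M₀`. So `a` is fixed, and the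
modulus is so large that a class contains only few numbers up to `x`.

We show: for almost all `c`, with at most `(∏ A_i) / (log x) ^ U` exceptions, `U` arbitrary, and for ALL `a ≤ √x` at
which no `f_i(a) + c_i` has a prime factor `p ≤ (log x) ^ (B + 3)` (for instance for the prime points `a` themselves),
the prime points `n > a` avoid the class of `a`: the sum over all `Q < q ≤ 2 Q`, `(∏ (f_i(a) + c_i), q) = 1`, of the
number of the prime points `a < n ≤ x`, `n ≡ a (mod q)` (with the weights `∏ log (f_i(n) + c_i)`) minus the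
expected number is equal to `- (1 / 2) 𝔖 Q 𝒢(x / Q)`, up to a factor `1 + O(1 / log (x / Q))`, where `𝔖` is the constant
of Bateman and Horn of the system and
`𝒢(M) = ∑_{m ≤ M} μ(m) ^ 2 ∏_{p | m} ω(p) / (p - ω(p))`.
The asymptotic formula is uniform in `Q` and `a`. (For a fixed system of different irreducible polynomials `𝔖 𝒢(M)` is
asymptotic to `(log M) ^ k / k!`.)

For the primes themselves (`k = 1`, `f = X`, `c = 0`, `a = ± 1`) this is due to Fiorilli (Residue classes containing an
unexpected number of primes, 2012). The proof there uses Dirichlet characters or the switching of the divisors and the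
analytic behaviour of `∑ 1 / φ(n)`. We have an elementary proof which is uniform in the system, whose local densities `ω(p)`
are not under control: the small divisors `m` of `n - a = q m` give
`∑_m g(m) min (Q, X / m - Q)` with `g(m) = m / ρ(m) = ∑_{e | m} μ(e) ^ 2 h(e)`, which leads to
`∑_e h(e) V(X / (e Q))` with `V(Y) = ∑_{j ≤ Y} min (1, Y / j - 1) = Y log 2 - 1 / 2 + O(1 / Y)`, and the error is
controlled by the inequality of Hall and Tenenbaum
`∑_{e ≤ N} h(e) e ≤ C (N / log N) ∑_{e ≤ N} h(e)`. The numbers of the prime points in the classes modulo `m ≤ (log x) ^ B`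
are known for almost all `c` (`Pool.Agent.H544.LD`, the theorem of helper544 on the analogue of the conjecture of
Elliott and Halberstam).
-/

set_option autoImplicit false

open Finset Polynomial Filter

namespace Pool.Agent.Results.MP_82233c_nt.RepulsionOfPrimePoints

/-- the value `f_i(n) + c_i` -/
def value {k : ℕ} (f : Fin k → ℤ[X]) (c : Fin k → ℕ) (i : Fin k) (n : ℕ) : ℤ := (f i).eval (n : ℤ) + c i

open Classical in
/-- the sum of `∏ log (f_i(n) + c_i)` over the `a < n ≤ x`, `n ≡ a (mod q)`, at which all `f_i(n) + c_i` are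
prime -/
noncomputable def theta {k : ℕ} (f : Fin k → ℤ[X]) (c : Fin k → ℕ) (x a q : ℕ) : ℝ :=
  ∑ n ∈ (Ioc a x).filter (fun n : ℕ => n ≡ a [MOD q] ∧ ∀ i, (value f c i n).toNat.Prime),
    ∏ i, Real.log (value f c i n)

/-- the number of residues `n` modulo `p` at which `p` divides some `f_i(n) + c_i` -/
def omega {k : ℕ} (f : Fin k → ℤ[X]) (c : Fin k → ℕ) (p : ℕ) : ℕ :=
  ((range p).filter (fun n : ℕ => (p : ℤ) ∣ ∏ i, value f c i n)).card

/-- the number of residues `r` modulo `q` at which all `f_i(r) + c_i` are coprime to `q` -/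
def rho {k : ℕ} (f : Fin k → ℤ[X]) (c : Fin k → ℕ) (q : ℕ) : ℕ :=
  ((range q).filter (fun r : ℕ => Int.gcd (∏ i, value f c i r) q = 1)).card

/-- the constant of Bateman and Horn of the system `f_i + c_i`, cut at `z` -/
noncomputable def const {k : ℕ} (f : Fin k → ℤ[X]) (c : Fin k → ℕ) (z : ℕ) : ℝ :=
  ∏ p ∈ (Icc 1 z).filter Nat.Prime, (1 - (omega f c p : ℝ) / p) / (1 - 1 / (p : ℝ)) ^ k

/-- the expected value of `theta` for an admissible class modulo `q` -/
noncomputable def expected {k : ℕ} (f : Fin k → ℤ[X]) (c : Fin k → ℕ) (z x q : ℕ) : ℝ :=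
  const f c z * x / rho f c q

/-- the sum `∑_{m ≤ M} μ(m) ^ 2 ∏_{p | m} ω(p) / (p - ω(p))` -/
noncomputable def series {k : ℕ} (f : Fin k → ℤ[X]) (c : Fin k → ℕ) (M : ℕ) : ℝ :=
  ∑ m ∈ (Icc 1 M).filter (fun m => Squarefree m), ∏ p ∈ m.primeFactors, (omega f c p : ℝ) / (p - omega f c p)

/-- The numbers of the prime points in the classes of all `a ≤ √x` at which all values have only prime factors
`> (log x) ^ (B + 3)` have the second order term `- const * Q / 2 * series(x / Q)` on average over `Q < q ≤ 2 Q`,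
for all `x / (log x) ^ B ≤ Q ≤ x / M₀`, with the relative error `C₀ / log (x / Q)`. -/
def Repelled {k : ℕ} (f : Fin k → ℤ[X]) (c : Fin k → ℕ) (z : ℕ) (B C₀ M₀ : ℝ) (x : ℕ) : Prop :=
  ∀ Q a : ℕ, (x : ℝ) / Real.log x ^ B ≤ Q → (Q : ℝ) ≤ x / M₀ → 1 ≤ a → (a : ℝ) ≤ √x →
    (∀ p : ℕ, p.Prime → (p : ℤ) ∣ ∏ i, value f c i a → Real.log x ^ (B + 3) < p) →
    |∑ q ∈ (Ioc Q (2 * Q)).filter (fun q : ℕ => Int.gcd (∏ i, value f c i a) q = 1),
        (theta f c x a q - expected f c z x q) + const f c z * Q / 2 * series f c (x / Q)| ≤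
      C₀ / Real.log ((x : ℝ) / Q) * (const f c z * Q * series f c (x / Q))

/-- the box of the constants -/
def box {k : ℕ} (A : Fin k → ℕ) : Finset (Fin k → ℕ) := Fintype.piFinset (fun i => Icc 1 (A i))

lemma value_eq {k : ℕ} (f : Fin k → ℤ[X]) (c : Fin k → ℕ) (i : Fin k) (n : ℕ) :
    value f c i n = Pool.Agent.H544.LD.va f c i n := by
  unfold value Pool.Agent.H544.LD.va
  ring

lemma prod_value {k : ℕ} (f : Fin k → ℤ[X]) (c : Fin k → ℕ) (n : ℕ) :
    ∏ i, value f c i n = (Pool.Agent.H544.LD.Hp f c).eval (n : ℤ) := by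
  rw [Pool.Agent.H544.LD.Hp_va]
  exact prod_congr rfl fun i _ => value_eq f c i n

lemma theta_eq {k : ℕ} (f : Fin k → ℤ[X]) (c : Fin k → ℕ) (x a q : ℕ) (haq : a < q) :
    Pool.Agent.H537.FT.cntW (fun n => if n = a then 0 else
      ∏ i, Pool.Agent.H373R2.T7.lamP (Pool.Agent.H544.LD.va f c i n)) x a q = theta f c x a q := by
  classical
  unfold theta Pool.Agent.H537.FT.cntW
  rw [← filter_filter, sum_filter (fun n : ℕ => ∀ i, (value f c i n).toNat.Prime)]
  have hsub : (Ioc a x).filter (fun n => n ≡ a [MOD q]) ⊆ (Icc 1 x).filter (fun n => n ≡ a [MOD q]) := by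
    intro n hn
    rw [mem_filter, mem_Ioc] at hn
    rw [mem_filter, mem_Icc]
    exact ⟨⟨by omega, hn.1.2⟩, hn.2⟩
  rw [← sum_subset hsub]
  · apply sum_congr rfl
    intro n hn
    rw [mem_filter, mem_Ioc] at hn
    rw [if_neg (by omega)]
    unfold Pool.Agent.H373R2.T7.lamP
    by_cases h : ∀ i, (value f c i n).toNat.Prime
    · rw [if_pos h]
      apply prod_congr rfl
      intro i _
      have h1 := h i
      rw [value_eq] at h1 ⊢
      rw [if_pos h1]
      have h2 : 0 ≤ Pool.Agent.H544.LD.va f c i n := by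
        have := h1.pos
        omega
      congr 1
      have h3 : (((Pool.Agent.H544.LD.va f c i n).toNat : ℤ) : ℝ) = ((Pool.Agent.H544.LD.va f c i n : ℤ) : ℝ) := by
        rw [Int.toNat_of_nonneg h2]
      rw [← h3]
      push_cast
      rfl
    · rw [if_neg h]
      push Not at h
      obtain ⟨i, hi⟩ := h
      apply prod_eq_zero (mem_univ i)
      rw [value_eq] at hi
      rw [if_neg hi]
  · intro n hn hn2
    rw [mem_filter, mem_Icc] at hn
    have h1 : n ≤ a := by
      by_contra hcon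
      push Not at hcon
      exact hn2 (mem_filter.mpr ⟨mem_Ioc.mpr ⟨hcon, hn.1.2⟩, hn.2⟩)
    have h2 : n = a := Nat.ModEq.eq_of_lt_of_lt hn.2 (by omega) haq
    rw [if_pos h2]

lemma omega_eq {k : ℕ} (f : Fin k → ℤ[X]) (c : Fin k → ℕ) (p : ℕ) :
    omega f c p = Pool.Agent.H544.LD.om (Pool.Agent.H544.LD.Hp f c) p := by
  unfold omega Pool.Agent.H544.LD.om
  simp only [prod_value]

lemma const_eq {k : ℕ} (f : Fin k → ℤ[X]) (c : Fin k → ℕ) (z : ℕ) :
    Pool.Agent.H544.LD.Cz f c z = const f c z := by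
  unfold const Pool.Agent.H544.LD.Cz Pool.Agent.H373R2.T7.pz
  simp only [omega_eq]

lemma expected_eq {k : ℕ} (f : Fin k → ℤ[X]) (c : Fin k → ℕ) (z x q : ℕ) :
    const f c z * (1 / (Pool.Agent.H544.LD.rho (Pool.Agent.H544.LD.Hp f c) q : ℝ)) * x =
      expected f c z x q := by
  have h2 : rho f c q = Pool.Agent.H544.LD.rho (Pool.Agent.H544.LD.Hp f c) q := by
    unfold rho Pool.Agent.H544.LD.rho
    simp only [prod_value]
  unfold expected
  rw [h2]
  ring

lemma series_eq {k : ℕ} (f : Fin k → ℤ[X]) (c : Fin k → ℕ) (M : ℕ) :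
    Pool.Agent.H537.BI.GG (Pool.Agent.H537.GP.hG (Pool.Agent.H544.LD.Hp f c)) M = series f c M := by
  unfold Pool.Agent.H537.BI.GG series
  have h1 : Pool.Agent.H537.FG.Sf ∅ M = (Icc 1 M).filter (fun m => Squarefree m) := by
    ext m
    rw [Pool.Agent.H537.BI.mem_Sf, mem_filter, mem_Icc]
  rw [h1]
  apply sum_congr rfl
  intro m _
  unfold Pool.Agent.H537.FG.hh Pool.Agent.H537.GP.hG
  apply prod_congr rfl
  intro p _
  have h2 : Pool.Agent.H537.GP.omG (Pool.Agent.H544.LD.Hp f c) p = omega f c p := by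
    rw [omega_eq]
    rfl
  rw [h2]

open Classical in
/-- **The second order term in the classes of prime points.** For all integer polynomials `f_1, ..., f_k` of positive
degrees with positive leading coefficients there are `C₀`, `M₀` such that for all `B > 0`, `B₁`, `U` and all large `x` the
following holds for all but at most `(∏ A_i) / (log x) ^ U` of the vectors `c` of constants `1 ≤ c_i ≤ A_i` (where
`x ^ d_i / B₁ ≤ A_i ≤ B₁ x ^ d_i`) for which the system `f_i + c_i` has no fixed prime divisor: for all `a ≤ √x` such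
that the numbers `f_i(a) + c_i` have only prime factors `> (log x) ^ (B + 3)`, and all `Q` between `x / (log x) ^ B` and `x / M₀`,
the numbers of the prime points `n > a` in the classes `a` modulo `q`, `Q < q ≤ 2 Q`, are too small on average, and the
deficit is asymptotically `const * Q / 2 * series(x / Q)`. -/
theorem result (k : ℕ) (hk : 1 ≤ k) (f : Fin k → ℤ[X]) (hd : ∀ i, 1 ≤ (f i).natDegree)
    (hl : ∀ i, 0 < (f i).leadingCoeff) :
    ∃ C₀ M₀ : ℝ, 1 ≤ M₀ ∧ ∀ B : ℝ, 0 < B → ∀ B₁ U : ℕ, ∃ E₀ : ℕ, ∀ E : ℕ, ∃ x₀ : ℕ, ∀ x : ℕ, x₀ ≤ x →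
      ∀ A : Fin k → ℕ, (∀ i, A i ≤ B₁ * x ^ (f i).natDegree ∧ x ^ (f i).natDegree ≤ B₁ * A i) →
      ∀ z : ℕ, Real.log x ^ E₀ ≤ z → (z : ℝ) ≤ Real.log x ^ E →
        (((box A).filter (fun c => (∀ p : ℕ, p.Prime → omega f c p < p) ∧
          ¬ Repelled f c z B C₀ M₀ x)).card : ℝ) ≤ (∏ i, (A i : ℝ)) / Real.log x ^ U := by
  obtain ⟨C₀, hC₀, M₀, hM₀, h⟩ := Pool.Agent.H537.BI.almost_bias hk f hd hl
  refine ⟨C₀, M₀, hM₀, fun B hB B₁ U => ?_⟩
  obtain ⟨E₀, g⟩ := h B hB (max B₁ 1) U (le_max_right _ _)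
  refine ⟨E₀, fun E => ?_⟩
  have hlogX : Tendsto (fun X : ℕ => Real.log (X : ℝ)) atTop atTop :=
    Real.tendsto_log_atTop.comp tendsto_natCast_atTop_atTop
  -- `√x < x / (log x) ^ B`
  have t1 : ∀ᶠ x : ℕ in atTop, √(x : ℝ) < x / Real.log x ^ B := by
    have h1 := ((isLittleO_log_rpow_rpow_atTop B (show (0 : ℝ) < 1 / 2 by norm_num)).comp_tendsto
      tendsto_natCast_atTop_atTop).bound (c := 1 / 2) (by norm_num)
    filter_upwards [h1, hlogX.eventually_ge_atTop 1, eventually_ge_atTop 3] with x h2 h3 h4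
    have hx0 : (0 : ℝ) < x := by
      have : 0 < x := by omega
      exact_mod_cast this
    simp only [Function.comp_apply] at h2
    rw [Real.norm_of_nonneg (Real.rpow_nonneg (by linarith) _), Real.norm_of_nonneg (Real.rpow_nonneg hx0.le _),
      ← Real.sqrt_eq_rpow] at h2
    have hs : 0 < √(x : ℝ) := Real.sqrt_pos.mpr hx0
    rw [lt_div_iff₀ (Real.rpow_pos_of_pos (by linarith) _)]
    calc √(x : ℝ) * Real.log x ^ B ≤ √x * (1 / 2 * √x) := mul_le_mul_of_nonneg_left h2 hs.le
      _ < √x * √x := by nlinarith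
      _ = x := Real.mul_self_sqrt hx0.le
  obtain ⟨x₀, hx₀⟩ := eventually_atTop.mp ((g E).and t1)
  refine ⟨x₀, fun x hx A hA z hz1 hz2 => ?_⟩
  obtain ⟨r, hr⟩ := hx₀ x hx
  have hA' : ∀ i, A i ≤ max B₁ 1 * x ^ (f i).natDegree ∧ x ^ (f i).natDegree ≤ max B₁ 1 * A i := fun i =>
    ⟨(hA i).1.trans (Nat.mul_le_mul_right _ (le_max_left _ _)),
      (hA i).2.trans (Nat.mul_le_mul_right _ (le_max_left _ _))⟩
  have s := r A hA' z hz1 hz2
  refine le_trans ?_ s
  have hsub : (box A).filter (fun c => (∀ p : ℕ, p.Prime → omega f c p < p) ∧ ¬ Repelled f c z B C₀ M₀ x) ⊆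
      (Pool.Agent.H544.LD.Bx A).filter (fun c =>
        (∀ p : ℕ, p.Prime → Pool.Agent.H544.LD.om (Pool.Agent.H544.LD.Hp f c) p < p) ∧
        ¬ ∀ Q a : ℕ, (x : ℝ) / Real.log x ^ B ≤ Q → (Q : ℝ) ≤ x / M₀ → 1 ≤ a → (a : ℝ) ≤ (x : ℝ) ^ (1 / 2 : ℝ) →
        (∀ p : ℕ, p.Prime → (p : ℤ) ∣ (Pool.Agent.H544.LD.Hp f c).eval (a : ℤ) → Real.log x ^ (B + 3) < p) →
        |∑ q ∈ (Ioc Q (2 * Q)).filter (fun q : ℕ => Int.gcd ((Pool.Agent.H544.LD.Hp f c).eval (a : ℤ)) q = 1),
            (Pool.Agent.H537.FT.cntW (fun n => if n = a then 0 else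
              ∏ i, Pool.Agent.H373R2.T7.lamP (Pool.Agent.H544.LD.va f c i n)) x a q -
              Pool.Agent.H544.LD.Cz f c z * (1 / (Pool.Agent.H544.LD.rho (Pool.Agent.H544.LD.Hp f c) q : ℝ)) * x) +
            Pool.Agent.H544.LD.Cz f c z *
              (Q / 2 * Pool.Agent.H537.BI.GG (Pool.Agent.H537.GP.hG (Pool.Agent.H544.LD.Hp f c)) (x / Q))| ≤
          C₀ * (Pool.Agent.H544.LD.Cz f c z *
            (Q * Pool.Agent.H537.BI.GG (Pool.Agent.H537.GP.hG (Pool.Agent.H544.LD.Hp f c)) (x / Q))) /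
              Real.log ((x : ℝ) / Q)) := by
    intro c hc
    rw [mem_filter] at hc
    obtain ⟨hcB, hadm, hno⟩ := hc
    rw [mem_filter]
    refine ⟨hcB, fun p hp => by
      rw [← omega_eq]
      exact hadm p hp, ?_⟩
    intro hall
    apply hno
    intro Q a hQ1 hQ2 ha1 ha2 ha3
    have haQ : a < Q := by
      have : (a : ℝ) < Q := lt_of_le_of_lt ha2 (lt_of_lt_of_le hr hQ1)
      exact_mod_cast this
    have key := hall Q a hQ1 hQ2 ha1 (by rwa [← Real.sqrt_eq_rpow]) (by
      intro p hp hpd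
      apply ha3 p hp
      rw [prod_value]
      exact hpd)
    rw [const_eq, series_eq, ← prod_value] at key
    have hsum : ∑ q ∈ (Ioc Q (2 * Q)).filter (fun q : ℕ => Int.gcd (∏ i, value f c i a) q = 1),
        (theta f c x a q - expected f c z x q) =
        ∑ q ∈ (Ioc Q (2 * Q)).filter (fun q : ℕ => Int.gcd (∏ i, value f c i a) q = 1),
          (Pool.Agent.H537.FT.cntW (fun n => if n = a then 0 else
              ∏ i, Pool.Agent.H373R2.T7.lamP (Pool.Agent.H544.LD.va f c i n)) x a q -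
              const f c z * (1 / (Pool.Agent.H544.LD.rho (Pool.Agent.H544.LD.Hp f c) q : ℝ)) * x) := by
      refine sum_congr rfl fun q hq => ?_
      rw [mem_filter, mem_Ioc] at hq
      rw [theta_eq f c x a q (by omega), expected_eq]
    rw [hsum]
    have e1 : const f c z * Q / 2 * series f c (x / Q) = const f c z * (Q / 2 * series f c (x / Q)) := by ring
    have e2 : C₀ / Real.log ((x : ℝ) / Q) * (const f c z * Q * series f c (x / Q)) =
        C₀ * (const f c z * (Q * series f c (x / Q))) / Real.log ((x : ℝ) / Q) := by ring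
    rw [e1, e2]
    exact key
  exact_mod_cast card_le_card hsub

end Pool.Agent.Results.MP_82233c_nt.RepulsionOfPrimePoints
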